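import Pool.Agent.Helper73.LOMin.Rigid

/-!
Countable rich hulls (MP_70d4a1_al).
-/

namespace PoolLOMin

open scoped Pointwise in
lemma countable_closure {G : Type*} [Group G] (S : Set G) (hS : S.Countable) :
    ((Subgroup.closure S : Subgroup G) : Set G).Countable := by
  have hT : (S ∪ S⁻¹).Countable := by
    refine hS.union ?_
    have : S⁻¹ = (fun x => x⁻¹) '' S := by
      ext x
      constructor
      · intro hx
        exact ⟨x⁻¹, hx, inv_inv x⟩
      · rintro ⟨y, hy, rfl⟩
        change y⁻¹⁻¹ ∈ S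
        rwa [inv_inv]
    rw [this]
    exact hS.image _
  have : Countable ↥(S ∪ S⁻¹) := hT.to_subtype
  have h2 : (Set.range (fun l : List ↥(S ∪ S⁻¹) =>
      (l.map Subtype.val).prod)).Countable := Set.countable_range _
  refine h2.mono ?_
  intro x hx
  have hx' : x ∈ Submonoid.closure (S ∪ S⁻¹) := by
    rw [← Subgroup.closure_toSubmonoid]
    exact hx
  obtain ⟨l, hl, rfl⟩ := Submonoid.exists_list_of_mem_closure hx'
  refine ⟨l.pmap (fun a ha => ⟨a, ha⟩) (fun a ha => hl a ha), ?_⟩
  dsimp only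
  rw [List.map_pmap]
  simp

/-- the group of all periodic maps -/
def PerG : Subgroup AutQ where
  carrier := {f | Per f}
  mul_mem' := by
    intro f g hf hg x
    simp only [mul_apply']
    rw [hg, hf]
  one_mem' := fun x => rfl
  inv_mem' := by
    intro f hf x
    apply f.injective
    change f (f⁻¹ (x + 1)) = f (f⁻¹ x + 1)
    rw [hf]
    have h : ∀ y, f (f⁻¹ y) = y := fun y => f.apply_symm_apply y
    rw [h, h]

lemma mem_PerG (f : AutQ) : f ∈ PerG ↔ Per f := Iff.rfl

theorem exists_rich_of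
    (hBG : ∀ h : AutQ, Per h → 0 < h 0 → h 0 < 1 → ∃ l : List AutQ, l.length ≤ 13 ∧
      (∀ x ∈ l, Per x ∧ (Root x ∨ Root x⁻¹)) ∧ l.prod = h)
    (S : Set AutQ) (hS : S.Countable) (hper : ∀ f ∈ S, Per f) :
    ∃ H : Subgroup AutQ, Rich H ∧ S ⊆ H ∧ Countable H := by
  classical
  have hch : ∀ h : AutQ, ∃ l : List AutQ, (Per h → 0 < h 0 → h 0 < 1 → (l.length ≤ 13 ∧
      (∀ x ∈ l, (Root x ∨ Root x⁻¹)) ∧ l.prod = h)) ∧ ∀ x ∈ l, Per x := by
    intro h
    by_cases hc : Per h ∧ 0 < h 0 ∧ h 0 < 1
    · obtain ⟨l, h1, h2, h3⟩ := hBG h hc.1 hc.2.1 hc.2.2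
      exact ⟨l, fun _ _ _ => ⟨h1, fun x hx => (h2 x hx).2, h3⟩, fun x hx => (h2 x hx).1⟩
    · refine ⟨[], fun a b c => absurd ⟨a, b, c⟩ hc, ?_⟩
      intro x hx
      simp at hx
  choose L hL hLper using hch
  let nxt : Set AutQ → Set AutQ := fun T => T ∪ ⋃ h ∈ (Subgroup.closure T : Set AutQ), {x | x ∈ L h}
  let T : ℕ → Set AutQ := fun n => Nat.rec (S ∪ Set.range shift) (fun _ T => nxt T) n
  have hT0 : T 0 = S ∪ Set.range shift := rfl
  have hTs : ∀ n, T (n + 1) = nxt (T n) := fun n => rfl
  have hTmono : Monotone T := monotone_nat_of_le_succ fun n => by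
    rw [hTs]
    exact Set.subset_union_left
  have hTc : ∀ n, (T n).Countable := by
    intro n
    induction n with
    | zero =>
      rw [hT0]
      exact hS.union (Set.countable_range _)
    | succ n ih =>
      rw [hTs]
      refine ih.union ?_
      refine (countable_closure _ ih).biUnion fun h _ => ?_
      exact (List.finite_toSet (L h)).countable
  have hTper : ∀ n, ∀ f ∈ T n, Per f := by
    intro n
    induction n with
    | zero =>
      intro f hf
      rw [hT0] at hf
      rcases hf with hf | ⟨c, rfl⟩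
      · exact hper f hf
      · intro x
        simp only [shift_apply]
        ring
    | succ n ih =>
      intro f hf
      rw [hTs] at hf
      rcases hf with hf | hf
      · exact ih f hf
      · simp only [Set.mem_iUnion] at hf
        obtain ⟨h, _, hx⟩ := hf
        exact hLper h f hx
  have hdir : Directed (· ≤ ·) (fun n => Subgroup.closure (T n)) := by
    apply Monotone.directed_le
    intro m n hmn
    exact Subgroup.closure_mono (hTmono hmn)
  have hmem : ∀ x, x ∈ (⨆ n, Subgroup.closure (T n)) ↔ ∃ n, x ∈ Subgroup.closure (T n) := by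
    intro x
    exact Subgroup.mem_iSup_of_directed hdir
  refine ⟨⨆ n, Subgroup.closure (T n), ⟨?_, ?_, ?_⟩, ?_, ?_⟩
  · intro h hh
    obtain ⟨n, hn⟩ := (hmem h).mp hh
    have : Subgroup.closure (T n) ≤ PerG := by
      rw [Subgroup.closure_le]
      exact hTper n
    exact this hn
  · intro c
    rw [hmem]
    refine ⟨0, Subgroup.subset_closure ?_⟩
    rw [hT0]
    exact Or.inr ⟨c, rfl⟩
  · intro h hh h0 h1
    obtain ⟨n, hn⟩ := (hmem h).mp hh
    have hle : Subgroup.closure (T n) ≤ PerG := by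
      rw [Subgroup.closure_le]
      exact hTper n
    obtain ⟨h2, h3, h4⟩ := hL h (hle hn) h0 h1
    refine ⟨L h, h2, fun x hx => ⟨?_, h3 x hx⟩, h4⟩
    rw [hmem]
    refine ⟨n + 1, Subgroup.subset_closure ?_⟩
    rw [hTs]
    right
    simp only [Set.mem_iUnion]
    exact ⟨h, hn, hx⟩
  · intro x hx
    rw [SetLike.mem_coe, hmem]
    refine ⟨0, Subgroup.subset_closure ?_⟩
    rw [hT0]
    exact Or.inl hx
  · have : (((⨆ n, Subgroup.closure (T n) : Subgroup AutQ)) : Set AutQ) =
        ⋃ n, (Subgroup.closure (T n) : Set AutQ) := by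
      ext x
      rw [SetLike.mem_coe, hmem]
      simp
    have h2 : (((⨆ n, Subgroup.closure (T n) : Subgroup AutQ)) : Set AutQ).Countable := by
      rw [this]
      exact Set.countable_iUnion fun n => countable_closure _ (hTc n)
    exact h2.to_subtype

end PoolLOMin
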