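import Mathlib

/-!
Definitions for MP_70d4a1_al: minimal conjugation actions on spaces of left orders.
-/

namespace PoolLOMin

/-- `P` is the positive cone of a left order on `G`. -/
def IsCone {G : Type*} [Group G] (P : Set G) : Prop :=
  (∀ a ∈ P, ∀ b ∈ P, a * b ∈ P) ∧ (1 : G) ∉ P ∧
    (∀ a : G, a ≠ 1 → (a ∈ P ∨ a⁻¹ ∈ P)) ∧ (∀ a ∈ P, a⁻¹ ∉ P)

/-- the group of order automorphisms of the rationals; `(f * g) x = f (g x)` -/
abbrev AutQ := ℚ ≃o ℚ

/-- the translation `x ↦ x + c` -/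
def shift (c : ℚ) : AutQ := OrderIso.addRight c

@[simp] lemma shift_apply (c x : ℚ) : shift c x = x + c := rfl

@[simp] lemma mul_apply' (f g : AutQ) (x : ℚ) : (f * g) x = f (g x) := rfl

@[simp] lemma one_apply' (x : ℚ) : (1 : AutQ) x = x := rfl

/-- `f` commutes with `x ↦ x + 1` -/
def Per (f : AutQ) : Prop := ∀ x, f (x + 1) = f x + 1

/-- `f` is a square root of `x ↦ x + 1` -/
def Root (f : AutQ) : Prop := ∀ x, f (f x) = x + 1

/-- `H` is a subgroup of periodic maps, contains all translations and every `h ∈ H` with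
`0 < h 0 < 1` is a product of at most 13 elements of `H` which are roots or inverses of roots -/
structure Rich (H : Subgroup AutQ) : Prop where
  per : ∀ h ∈ H, Per h
  shift_mem : ∀ c : ℚ, shift c ∈ H
  gen : ∀ h ∈ H, 0 < h 0 → h 0 < 1 → ∃ l : List AutQ, l.length ≤ 13 ∧
    (∀ x ∈ l, x ∈ H ∧ (Root x ∨ Root x⁻¹)) ∧ l.prod = h

end PoolLOMin
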