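import Pool.Agent.Helper73.LOMin.Defs

/-!
Direct limits of countable groups with cones (MP_70d4a1_al).
-/

namespace PoolLOMin

/-- a countable group with a cone -/
structure Obj where
  /-- the group -/
  G : Type
  /-- its group structure -/
  grp : Group G
  /-- it is countable -/
  cnt : Countable G
  /-- the cone -/
  P : Set G
  /-- it is a cone -/
  cone : IsCone P

attribute [instance] Obj.grp Obj.cnt

section seq

variable (O : ℕ → Obj) (ψ : ∀ n, (O n).G →* (O (n + 1)).G)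

/-- transition maps -/
def tr (i j : ℕ) (h : i ≤ j) : (O i).G →* (O j).G :=
  Nat.leRec (motive := fun j _ => (O i).G →* (O j).G) (MonoidHom.id _)
    (fun k _ g => (ψ k).comp g) h

lemma tr_self (i : ℕ) (x : (O i).G) : tr O ψ i i le_rfl x = x := by
  unfold tr
  rw [Nat.leRec_self]
  rfl

lemma tr_succ (i j : ℕ) (h : i ≤ j) (x : (O i).G) :
    tr O ψ i (j + 1) (h.trans (Nat.le_succ j)) x = ψ j (tr O ψ i j h x) := by
  unfold tr
  rw [Nat.leRec_succ _ _ h]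
  rfl

lemma tr_tr (i j k : ℕ) (hij : i ≤ j) (hjk : j ≤ k) (x : (O i).G) :
    tr O ψ j k hjk (tr O ψ i j hij x) = tr O ψ i k (hij.trans hjk) x := by
  induction k, hjk using Nat.le_induction with
  | base => rw [tr_self]
  | succ k hjk ih =>
    rw [tr_succ O ψ j k hjk, tr_succ O ψ i k (hij.trans hjk), ih]

instance trSystem : DirectedSystem (fun i => (O i).G) (tr O ψ · · ·) where
  map_self := fun i x => tr_self O ψ i x
  map_map := fun k j i hij hjk x => tr_tr O ψ i j k hij hjk x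

/-- the direct limit -/
abbrev Lim : Type := DirectLimit (fun i => (O i).G) (tr O ψ)

/-- the class of an element -/
def cls (n : ℕ) (x : (O n).G) : Lim O ψ :=
  Quotient.mk (DirectLimit.setoid (F := fun i => (O i).G) (tr O ψ)) ⟨n, x⟩

lemma cls_one (n : ℕ) : cls O ψ n 1 = 1 :=
  (DirectLimit.one_def (G := fun i => (O i).G) (f := tr O ψ) n).symm

lemma cls_mul (n : ℕ) (x y : (O n).G) : cls O ψ n (x * y) = cls O ψ n x * cls O ψ n y :=
  (DirectLimit.mul_def (G := fun i => (O i).G) (f := tr O ψ) n x y).symm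

/-- the canonical map -/
def ι (n : ℕ) : (O n).G →* Lim O ψ where
  toFun x := cls O ψ n x
  map_one' := cls_one O ψ n
  map_mul' x y := cls_mul O ψ n x y

lemma ι_surj (z : Lim O ψ) : ∃ n x, z = ι O ψ n x :=
  DirectLimit.exists_eq_mk (F := fun i => (O i).G) (tr O ψ) z

lemma ι_tr (i j : ℕ) (h : i ≤ j) (x : (O i).G) : ι O ψ j (tr O ψ i j h x) = ι O ψ i x :=
  DirectLimit.mk_apply (F := fun i => (O i).G) (f := tr O ψ) i j x h

lemma ι_succ (i : ℕ) (x : (O i).G) : ι O ψ (i + 1) (ψ i x) = ι O ψ i x := by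
  rw [← ι_tr O ψ i (i + 1) (Nat.le_succ i) x]
  congr 1
  rw [tr_succ O ψ i i le_rfl, tr_self]

lemma ι_surj_finset (F : Finset (Lim O ψ)) : ∃ n, ∀ z ∈ F, ∃ x, z = ι O ψ n x := by
  classical
  induction F using Finset.induction_on with
  | empty => exact ⟨0, by simp⟩
  | insert a F ha ih =>
    obtain ⟨n, hn⟩ := ih
    obtain ⟨m, y, hy⟩ := ι_surj O ψ a
    refine ⟨max n m, fun z hz => ?_⟩
    rcases Finset.mem_insert.mp hz with rfl | hz
    · exact ⟨tr O ψ m (max n m) (le_max_right _ _) y, by rw [ι_tr]; exact hy⟩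
    · obtain ⟨x, hx⟩ := hn z hz
      exact ⟨tr O ψ n (max n m) (le_max_left _ _) x, by rw [ι_tr]; exact hx⟩

variable (hinj : ∀ n, Function.Injective (ψ n)) (hP : ∀ n g, ψ n g ∈ (O (n + 1)).P ↔ g ∈ (O n).P)

include hinj in
lemma tr_inj (i j : ℕ) (h : i ≤ j) : Function.Injective (tr O ψ i j h) := by
  induction j, h using Nat.le_induction with
  | base =>
    intro x y hxy
    rwa [tr_self, tr_self] at hxy
  | succ k h ih =>
    intro x y hxy
    rw [tr_succ O ψ i k h, tr_succ O ψ i k h] at hxy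
    exact ih (hinj k hxy)

include hinj in
lemma ι_inj (n : ℕ) : Function.Injective (ι O ψ n) :=
  DirectLimit.mk_injective (F := fun i => (O i).G) (tr O ψ) (tr_inj O ψ hinj) n

include hP in
lemma tr_mem (i j : ℕ) (h : i ≤ j) (x : (O i).G) : tr O ψ i j h x ∈ (O j).P ↔ x ∈ (O i).P := by
  induction j, h using Nat.le_induction with
  | base => rw [tr_self]
  | succ k h ih => rw [tr_succ O ψ i k h, hP, ih]

/-- the limit cone -/
def limCone : Set (Lim O ψ) := {z | ∃ n, ∃ x ∈ (O n).P, z = ι O ψ n x}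

include hinj hP in
lemma ι_mem (n : ℕ) (x : (O n).G) : ι O ψ n x ∈ limCone O ψ ↔ x ∈ (O n).P := by
  constructor
  · rintro ⟨m, y, hy, hxy⟩
    have h1 : ι O ψ (max n m) (tr O ψ n (max n m) (le_max_left _ _) x) =
        ι O ψ (max n m) (tr O ψ m (max n m) (le_max_right _ _) y) := by
      rw [ι_tr, ι_tr]
      exact hxy
    have h2 := ι_inj O ψ hinj _ h1
    rw [← tr_mem O ψ hP n (max n m) (le_max_left _ _), h2, tr_mem O ψ hP]
    exact hy
  · intro h
    exact ⟨n, x, h, rfl⟩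

include hinj hP in
lemma isCone_limCone : IsCone (limCone O ψ) := by
  have hmul : ∀ a ∈ limCone O ψ, ∀ b ∈ limCone O ψ, a * b ∈ limCone O ψ := by
    rintro a ⟨n, x, hx, rfl⟩ b ⟨m, y, hy, rfl⟩
    rw [← ι_tr O ψ n (max n m) (le_max_left _ _), ← ι_tr O ψ m (max n m) (le_max_right _ _),
      ← map_mul, ι_mem O ψ hinj hP]
    apply (O (max n m)).cone.1
    · rwa [tr_mem O ψ hP]
    · rwa [tr_mem O ψ hP]
  have hone : (1 : Lim O ψ) ∉ limCone O ψ := by
    rw [← map_one (ι O ψ 0), ι_mem O ψ hinj hP]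
    exact (O 0).cone.2.1
  refine ⟨hmul, hone, ?_, ?_⟩
  · intro a ha
    obtain ⟨n, x, rfl⟩ := ι_surj O ψ a
    have hx : x ≠ 1 := by
      rintro rfl
      exact ha (map_one _)
    rw [← map_inv, ι_mem O ψ hinj hP, ι_mem O ψ hinj hP]
    exact (O n).cone.2.2.1 x hx
  · intro a ha hinv
    have := hmul a ha _ hinv
    rw [mul_inv_cancel] at this
    exact hone this

end seq

lemma IsCone.comap {A B : Type} [Group A] [Group B] (φ : A →* B) (hφ : Function.Injective φ)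
    {P : Set B} (hP : IsCone P) : IsCone (φ ⁻¹' P) := by
  refine ⟨?_, ?_, ?_, ?_⟩
  · intro a ha b hb
    rw [Set.mem_preimage, map_mul]
    exact hP.1 _ ha _ hb
  · rw [Set.mem_preimage, map_one]
    exact hP.2.1
  · intro a ha
    rw [Set.mem_preimage, Set.mem_preimage, map_inv]
    apply hP.2.2.1
    intro h
    apply ha
    apply hφ
    rw [h, map_one]
  · intro a ha h
    rw [Set.mem_preimage, map_inv] at h
    exact hP.2.2.2 _ ha h

/-- iteration -/
def seqO (nxt : Obj → Obj) (A : Obj) : ℕ → Obj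
  | 0 => A
  | n + 1 => nxt (seqO nxt A n)

/-- the connecting maps of an iteration -/
def seqψ (nxt : Obj → Obj) (φ : ∀ A : Obj, A.G →* (nxt A).G) (A : Obj) (n : ℕ) :
    (seqO nxt A n).G →* (seqO nxt A (n + 1)).G := φ (seqO nxt A n)

theorem limit
    (hstep : ∀ (G : Type) [Group G] [Countable G] (P₀ : Set G), IsCone P₀ →
      ∃ (H : Type) (_ : Group H) (φ : G →* H) (P₁ : Set H), Countable H ∧ IsCone P₁ ∧
        Nontrivial H ∧ Function.Injective φ ∧ (∀ g, φ g ∈ P₁ ↔ g ∈ P₀) ∧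
        ∀ P : Set H, IsCone P → ∀ Q : Set G, IsCone Q → ∀ F : Finset G,
          ∃ h : H, ∀ f ∈ F, (h * φ f * h⁻¹ ∈ P ↔ f ∈ Q))
    (G₀ : Type) [Group G₀] [Countable G₀] (P₀ : Set G₀) (hP₀ : IsCone P₀) :
    ∃ (G : Type) (_ : Group G) (φ : G₀ →* G) (P₁ : Set G), Countable G ∧ IsCone P₁ ∧
      Nontrivial G ∧ Function.Injective φ ∧ (∀ g, φ g ∈ P₁ ↔ g ∈ P₀) ∧
      ∀ P Q : Set G, IsCone P → IsCone Q → ∀ F : Finset G,
        ∃ g : G, ∀ f ∈ F, (g * f * g⁻¹ ∈ P ↔ f ∈ Q) := by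
  classical
  have hnext : ∀ A : Obj, ∃ (B : Obj) (φ : A.G →* B.G), Nontrivial B.G ∧
      Function.Injective φ ∧ (∀ g, φ g ∈ B.P ↔ g ∈ A.P) ∧
      ∀ P : Set B.G, IsCone P → ∀ Q : Set A.G, IsCone Q → ∀ F : Finset A.G,
          ∃ h : B.G, ∀ f ∈ F, (h * φ f * h⁻¹ ∈ P ↔ f ∈ Q) := by
    intro A
    obtain ⟨H, gH, φ, P₁, h1, h2, h3, h4, h5, h6⟩ := hstep A.G A.P A.cone
    exact ⟨⟨H, gH, h1, P₁, h2⟩, φ, h3, h4, h5, h6⟩
  choose nxt φ hnt hinj hP hmin using hnext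
  let A₀ : Obj := ⟨G₀, inferInstance, inferInstance, P₀, hP₀⟩
  let O : ℕ → Obj := seqO nxt A₀
  let ψ : ∀ n : ℕ, (O n).G →* (O (n + 1)).G := seqψ nxt φ A₀
  have hψ : ∀ n, Function.Injective (ψ n) := fun n => hinj (O n)
  have hψP : ∀ n g, ψ n g ∈ (O (n + 1)).P ↔ g ∈ (O n).P := fun n => hP (O n)
  have hlimcone := isCone_limCone O ψ hψ hψP
  have hι := ι_inj O ψ hψ
  refine ⟨Lim O ψ, inferInstance, ι O ψ 0, limCone O ψ, ?_, hlimcone, ?_, hι 0,
    ι_mem O ψ hψ hψP 0, ?_⟩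
  · have : Function.Surjective (fun x : Σ n, (O n).G => ι O ψ x.1 x.2) := by
      intro z
      obtain ⟨n, x, hx⟩ := ι_surj O ψ z
      exact ⟨⟨n, x⟩, hx.symm⟩
    exact this.countable
  · have h1 : Nontrivial (O 1).G := hnt (O 0)
    exact (hι 1).nontrivial
  · intro P Q hPc hQc F
    obtain ⟨n, hn⟩ := ι_surj_finset O ψ F
    choose! x hx using hn
    have h1 : IsCone ((ι O ψ n) ⁻¹' Q) := hQc.comap _ (hι n)
    have h2 : IsCone ((ι O ψ (n + 1)) ⁻¹' P) := hPc.comap _ (hι (n + 1))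
    obtain ⟨h, hh⟩ : ∃ h : (O (n + 1)).G, ∀ f ∈ F.image x,
        (h * ψ n f * h⁻¹ ∈ (ι O ψ (n + 1)) ⁻¹' P ↔ f ∈ (ι O ψ n) ⁻¹' Q) :=
      hmin (O n) _ h2 _ h1 (F.image x)
    refine ⟨ι O ψ (n + 1) h, fun f hf => ?_⟩
    have h3 := hh (x f) (Finset.mem_image_of_mem x hf)
    have h4 : ι O ψ (n + 1) (h * ψ n (x f) * h⁻¹) = ι O ψ (n + 1) h * f * (ι O ψ (n + 1) h)⁻¹ := by
      rw [map_mul, map_mul, map_inv, ι_succ, ← hx f hf]
    rw [← h4]
    have h5 : x f ∈ (ι O ψ n) ⁻¹' Q ↔ f ∈ Q := by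
      rw [Set.mem_preimage, ← hx f hf]
    rw [← h5]
    exact h3

end PoolLOMin
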