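import Pool.Agent.Helper73.LOMin.Defs

/-!
A universal action (MP_70d4a1_al).
-/

namespace PoolLOMin

/-! ### extension of order automorphisms of the open unit interval -/

/-- the unit interval of the rationals -/
abbrev UI := Set.Ioo (0 : ℚ) 1

/-- value of `β` on `[0,1)` -/
def ev (β : UI ≃o UI) (y : ℚ) : ℚ := if h : y ∈ Set.Ioo (0 : ℚ) 1 then (β ⟨y, h⟩ : ℚ) else y

lemma ev_mem (β : UI ≃o UI) {y : ℚ} (hy : y ∈ Set.Ico (0 : ℚ) 1) : ev β y ∈ Set.Ico (0 : ℚ) 1 := by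
  unfold ev
  split_ifs with h
  · exact ⟨(β ⟨y, h⟩).2.1.le, (β ⟨y, h⟩).2.2⟩
  · exact hy

lemma ev_mul (β γ : UI ≃o UI) (y : ℚ) : ev (β * γ) y = ev β (ev γ y) := by
  unfold ev
  by_cases h : y ∈ Set.Ioo (0 : ℚ) 1
  · rw [dif_pos h, dif_pos h, dif_pos (γ ⟨y, h⟩).2]
    rfl
  · rw [dif_neg h, dif_neg h, dif_neg h]

lemma ev_one (y : ℚ) : ev 1 y = y := by
  unfold ev
  split_ifs with h
  · rfl
  · rfl

lemma ev_lt (β : UI ≃o UI) {y z : ℚ} (hy : y ∈ Set.Ico (0 : ℚ) 1) (hz : z ∈ Set.Ico (0 : ℚ) 1)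
    (hyz : y < z) : ev β y < ev β z := by
  have hz' : z ∈ Set.Ioo (0 : ℚ) 1 := ⟨hy.1.trans_lt hyz, hz.2⟩
  unfold ev
  rw [dif_pos hz']
  by_cases h : y ∈ Set.Ioo (0 : ℚ) 1
  · rw [dif_pos h]
    exact β.strictMono hyz
  · rw [dif_neg h]
    have : y = 0 := by
      by_contra hne
      exact h ⟨lt_of_le_of_ne hy.1 (Ne.symm hne), hy.2⟩
    rw [this]
    exact (β ⟨z, hz'⟩).2.1

/-- periodic extension as a function -/
def extFun (β : UI ≃o UI) (x : ℚ) : ℚ := ⌊x⌋ + ev β (Int.fract x)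

lemma fract_mem (x : ℚ) : Int.fract x ∈ Set.Ico (0 : ℚ) 1 :=
  ⟨Int.fract_nonneg x, Int.fract_lt_one x⟩

lemma floor_extFun (β : UI ≃o UI) (x : ℚ) : ⌊extFun β x⌋ = ⌊x⌋ := by
  have h := ev_mem β (fract_mem x)
  rw [Int.floor_eq_iff]
  unfold extFun
  exact ⟨by linarith [h.1], by linarith [h.2]⟩

lemma fract_extFun (β : UI ≃o UI) (x : ℚ) : Int.fract (extFun β x) = ev β (Int.fract x) := by
  rw [← Int.self_sub_floor, floor_extFun]
  unfold extFun
  ring

lemma extFun_mul (β γ : UI ≃o UI) (x : ℚ) : extFun (β * γ) x = extFun β (extFun γ x) := by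
  unfold extFun
  rw [ev_mul]
  have h1 := floor_extFun γ x
  have h2 := fract_extFun γ x
  unfold extFun at h1 h2
  rw [h1, h2]

lemma extFun_one (x : ℚ) : extFun 1 x = x := by
  unfold extFun
  rw [ev_one]
  exact Int.floor_add_fract x

lemma extFun_strictMono (β : UI ≃o UI) : StrictMono (extFun β) := by
  intro x y hxy
  rcases (Int.floor_mono hxy.le).lt_or_eq with h | h
  · have h1 := (ev_mem β (fract_mem x)).2
    have h2 := (ev_mem β (fract_mem y)).1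
    have h3 : ((⌊x⌋ + 1 : ℤ) : ℚ) ≤ ⌊y⌋ := by exact_mod_cast h
    push_cast at h3
    unfold extFun
    linarith
  · unfold extFun
    rw [h]
    have : Int.fract x < Int.fract y := by
      rw [← Int.self_sub_floor, ← Int.self_sub_floor, h]
      linarith
    have := ev_lt β (fract_mem x) (fract_mem y) this
    linarith

/-- periodic extension -/
def extIso : (UI ≃o UI) →* AutQ where
  toFun β :=
    { toFun := extFun β
      invFun := extFun β⁻¹
      left_inv := fun x => by rw [← extFun_mul, inv_mul_cancel, extFun_one]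
      right_inv := fun x => by rw [← extFun_mul, mul_inv_cancel, extFun_one]
      map_rel_iff' := (extFun_strictMono β).le_iff_le }
  map_one' := by
    apply OrderIso.ext
    funext x
    exact extFun_one x
  map_mul' β γ := by
    apply OrderIso.ext
    funext x
    exact extFun_mul β γ x

lemma extIso_per (β : UI ≃o UI) : Per (extIso β) := by
  intro x
  change extFun β (x + 1) = extFun β x + 1
  unfold extFun
  rw [Int.floor_add_one, Int.fract_add_one]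
  push_cast
  ring

lemma extIso_apply (β : UI ≃o UI) (y : UI) : extIso β y = β y := by
  change extFun β y = β y
  unfold extFun
  have h1 : ⌊(y : ℚ)⌋ = 0 := by
    rw [Int.floor_eq_zero_iff]
    exact ⟨y.2.1.le, y.2.2⟩
  have h2 : Int.fract (y : ℚ) = y := by
    rw [← Int.self_sub_floor, h1]
    simp
  rw [h1, h2]
  unfold ev
  rw [dif_pos y.2]
  simp

/-! ### the ordered set -/

section order

variable {G : Type} [Group G] (Q : ℕ → {P : Set G // IsCone P})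

/-- lexicographic sum of the sets `G × ℚ` -/
structure Om (Q : ℕ → {P : Set G // IsCone P}) where
  /-- index -/
  k : ℕ
  /-- group element -/
  g : G
  /-- rational coordinate -/
  q : ℚ

/-- the strict lexicographic relation -/
def OmLt (a b : Om Q) : Prop :=
  a.k < b.k ∨ (a.k = b.k ∧ (a.g⁻¹ * b.g ∈ (Q a.k).1 ∨ (a.g = b.g ∧ a.q < b.q)))

lemma OmLt_irrefl (a : Om Q) : ¬ OmLt Q a a := by
  rintro (h | ⟨_, h | ⟨_, h⟩⟩)
  · exact lt_irrefl _ h
  · rw [inv_mul_cancel] at h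
    exact (Q a.k).2.2.1 h
  · exact lt_irrefl _ h

lemma OmLt_trans {a b c : Om Q} (h1 : OmLt Q a b) (h2 : OmLt Q b c) : OmLt Q a c := by
  rcases h1 with h1 | ⟨h1, h1'⟩
  · rcases h2 with h2 | ⟨h2, _⟩
    · exact Or.inl (h1.trans h2)
    · exact Or.inl (h2 ▸ h1)
  · rcases h2 with h2 | ⟨h2, h2'⟩
    · exact Or.inl (h1 ▸ h2)
    · right
      refine ⟨h1.trans h2, ?_⟩
      rw [← h1] at h2'
      rcases h1' with h3 | ⟨h3, h3'⟩
      · left
        rcases h2' with h4 | ⟨h4, _⟩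
        · have := (Q a.k).2.1 _ h3 _ h4
          rwa [mul_assoc, mul_inv_cancel_left] at this
        · rw [← h4]; exact h3
      · rcases h2' with h4 | ⟨h4, h4'⟩
        · left; rw [h3]; exact h4
        · right; exact ⟨h3.trans h4, h3'.trans h4'⟩

lemma OmLt_trich (a b : Om Q) : OmLt Q a b ∨ a = b ∨ OmLt Q b a := by
  rcases lt_trichotomy a.k b.k with h | h | h
  · exact Or.inl (Or.inl h)
  · by_cases hg : a.g = b.g
    · rcases lt_trichotomy a.q b.q with hq | hq | hq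
      · exact Or.inl (Or.inr ⟨h, Or.inr ⟨hg, hq⟩⟩)
      · right; left
        cases a; cases b
        simp only at h hg hq
        subst h hg hq
        rfl
      · exact Or.inr (Or.inr (Or.inr ⟨h.symm, Or.inr ⟨hg.symm, hq⟩⟩))
    · have hne : a.g⁻¹ * b.g ≠ 1 := fun h' => hg (inv_mul_eq_one.mp h')
      rcases (Q a.k).2.2.2.1 _ hne with h1 | h1
      · exact Or.inl (Or.inr ⟨h, Or.inl h1⟩)
      · right; right; right
        refine ⟨h.symm, Or.inl ?_⟩
        rw [mul_inv_rev, inv_inv] at h1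
        rw [← h]
        exact h1
  · exact Or.inr (Or.inr (Or.inl h))

noncomputable instance : LinearOrder (Om Q) where
  le a b := a = b ∨ OmLt Q a b
  lt a b := OmLt Q a b
  le_refl a := Or.inl rfl
  le_trans a b c h1 h2 := by
    rcases h1 with rfl | h1
    · exact h2
    · rcases h2 with rfl | h2
      · exact Or.inr h1
      · exact Or.inr (OmLt_trans Q h1 h2)
  lt_iff_le_not_ge a b := by
    constructor
    · intro h
      refine ⟨Or.inr h, ?_⟩
      rintro (rfl | h')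
      · exact OmLt_irrefl Q _ h
      · exact OmLt_irrefl Q _ (OmLt_trans Q h h')
    · rintro ⟨rfl | h, h'⟩
      · exact absurd (Or.inl rfl) h'
      · exact h
  le_antisymm a b h1 h2 := by
    rcases h1 with rfl | h1
    · rfl
    · rcases h2 with h2 | h2
      · exact h2.symm
      · exact absurd (OmLt_trans Q h1 h2) (OmLt_irrefl Q _)
  le_total a b := by
    rcases OmLt_trich Q a b with h | h | h
    · exact Or.inl (Or.inr h)
    · exact Or.inl (Or.inl h)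
    · exact Or.inr (Or.inr h)
  toDecidableLE := Classical.decRel _
  toDecidableLT := Classical.decRel _
  toDecidableEq := Classical.decEq _

lemma Om_lt_def (a b : Om Q) : a < b ↔ OmLt Q a b := Iff.rfl

instance : DenselyOrdered (Om Q) := by
  refine ⟨fun a b hab => ?_⟩
  have hself : ∀ r : ℚ, a.q < r → a < (⟨a.k, a.g, r⟩ : Om Q) := fun r hr =>
    Or.inr ⟨rfl, Or.inr ⟨rfl, hr⟩⟩
  rcases hab with h | ⟨h, h' | ⟨h', hq⟩⟩
  · exact ⟨⟨a.k, a.g, a.q + 1⟩, hself _ (by linarith), Or.inl h⟩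
  · exact ⟨⟨a.k, a.g, a.q + 1⟩, hself _ (by linarith), Or.inr ⟨h, Or.inl h'⟩⟩
  · exact ⟨⟨a.k, a.g, (a.q + b.q) / 2⟩, hself _ (by linarith),
      Or.inr ⟨h, Or.inr ⟨h', by change (a.q + b.q) / 2 < b.q; linarith⟩⟩⟩

instance : NoMaxOrder (Om Q) :=
  ⟨fun a => ⟨⟨a.k, a.g, a.q + 1⟩, Or.inr ⟨rfl, Or.inr ⟨rfl, by change a.q < a.q + 1; linarith⟩⟩⟩⟩

instance : NoMinOrder (Om Q) :=
  ⟨fun a => ⟨⟨a.k, a.g, a.q - 1⟩, Or.inr ⟨rfl, Or.inr ⟨rfl, by change a.q - 1 < a.q; linarith⟩⟩⟩⟩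

instance : Nonempty (Om Q) := ⟨⟨0, 1, 0⟩⟩

instance [Countable G] : Countable (Om Q) := by
  have : Function.Injective (fun a : Om Q => (a.k, a.g, a.q)) := by
    rintro ⟨k, g, q⟩ ⟨k', g', q'⟩ h
    simp only [Prod.mk.injEq] at h
    obtain ⟨rfl, rfl, rfl⟩ := h
    rfl
  exact this.countable

/-- the action of the group -/
def OmAct (f : G) : Om Q ≃o Om Q where
  toFun a := ⟨a.k, f * a.g, a.q⟩
  invFun a := ⟨a.k, f⁻¹ * a.g, a.q⟩
  left_inv a := by simp
  right_inv a := by simp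
  map_rel_iff' := by
    have h : StrictMono (fun a : Om Q => (⟨a.k, f * a.g, a.q⟩ : Om Q)) := by
      intro a b hab
      change OmLt Q _ _
      rw [Om_lt_def] at hab
      unfold OmLt at hab ⊢
      simp only [mul_inv_rev, mul_left_cancel_iff]
      rw [mul_assoc, inv_mul_cancel_left]
      exact hab
    intro a b
    exact h.le_iff_le (a := a) (b := b)

/-- the action as a homomorphism -/
def OmHom : G →* (Om Q ≃o Om Q) where
  toFun := OmAct Q
  map_one' := by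
    apply OrderIso.ext
    funext a
    change (⟨a.k, 1 * a.g, a.q⟩ : Om Q) = a
    rw [one_mul]
  map_mul' f f' := by
    apply OrderIso.ext
    funext a
    change (⟨a.k, f * f' * a.g, a.q⟩ : Om Q) = ⟨a.k, f * (f' * a.g), a.q⟩
    rw [mul_assoc]

end order

lemma conj_hom {A B : Type} [LinearOrder A] [LinearOrder B] (E : A ≃o B) {G : Type} [Group G]
    (φ : G →* (A ≃o A)) : ∃ ψ : G →* (B ≃o B), ∀ g a, ψ g (E a) = E (φ g a) := by
  refine ⟨{ toFun := fun g => E.symm.trans ((φ g).trans E), map_one' := ?_, map_mul' := ?_ }, ?_⟩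
  · apply OrderIso.ext
    funext b
    simp
  · intro f g
    apply OrderIso.ext
    funext b
    simp
  · intro g a
    simp

lemma exists_seq (G : Type) [Group G] [Countable G] (P₀ : Set G) (hP₀ : IsCone P₀) :
    ∃ Q : ℕ → {P : Set G // IsCone P}, (Q 0).1 = P₀ ∧ ∀ R : Set G, IsCone R → ∀ F : Finset G,
      ∃ k, ∀ f ∈ F, (f ∈ (Q k).1 ↔ f ∈ R) := by
  classical
  have hc : ∀ t : Finset G × Finset G, ∃ P : {P : Set G // IsCone P},
      (∃ R : Set G, IsCone R ∧ ∀ f ∈ t.1, (f ∈ R ↔ f ∈ t.2)) →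
        ∀ f ∈ t.1, (f ∈ P.1 ↔ f ∈ t.2) := by
    intro t
    by_cases h : ∃ R : Set G, IsCone R ∧ ∀ f ∈ t.1, (f ∈ R ↔ f ∈ t.2)
    · obtain ⟨R, hR, hR'⟩ := h
      exact ⟨⟨R, hR⟩, fun _ => hR'⟩
    · exact ⟨⟨P₀, hP₀⟩, fun h' => absurd h' h⟩
  choose c hc using hc
  obtain ⟨s, hs⟩ := exists_surjective_nat (Finset G × Finset G)
  refine ⟨fun n => Nat.casesOn n ⟨P₀, hP₀⟩ (fun m => c (s m)), rfl, ?_⟩
  intro R hR F
  obtain ⟨m, hm⟩ := hs (F, F.filter (· ∈ R))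
  refine ⟨m + 1, fun f hf => ?_⟩
  have h1 := hc (F, F.filter (· ∈ R)) ⟨R, hR, fun f hf => by
    simp only [Finset.mem_filter]
    exact ⟨fun h => ⟨hf, h⟩, fun h => h.2⟩⟩ f hf
  change f ∈ (c (s m)).1 ↔ f ∈ R
  rw [hm, h1]
  simp only [Finset.mem_filter]
  exact ⟨fun h => h.2, fun h => ⟨hf, h⟩⟩

theorem universal_action (G : Type) [Group G] [Countable G] (P₀ : Set G) (hP₀ : IsCone P₀) :
    ∃ ρ : G →* AutQ, (∀ g, Per (ρ g)) ∧
      (∃ u v : ℚ, u < v ∧ ∀ f ∈ P₀, v ≤ ρ f u) ∧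
      (∀ Q : Set G, IsCone Q → ∀ F : Finset G, ∃ u v : ℚ, u < v ∧
        ∀ f ∈ F, (f ∈ Q → v ≤ ρ f u) ∧ (f ∉ Q → f ≠ 1 → v ≤ ρ f⁻¹ u)) := by
  obtain ⟨Q, hQ0, hQ⟩ := exists_seq G P₀ hP₀
  have : Nonempty UI := ⟨⟨1 / 2, by norm_num, by norm_num⟩⟩
  obtain ⟨E⟩ := Order.iso_of_countable_dense (Om Q) UI
  obtain ⟨ψ, hψ⟩ := conj_hom E (OmHom Q)
  have key : ∀ k : ℕ, ∀ f ∈ (Q k).1,
      ((E ⟨k, 1, 1⟩ : UI) : ℚ) ≤ extIso (ψ f) ((E ⟨k, 1, 0⟩ : UI) : ℚ) := by
    intro k f hf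
    rw [extIso_apply, hψ]
    change E ⟨k, 1, 1⟩ ≤ E (OmHom Q f ⟨k, 1, 0⟩)
    rw [E.le_iff_le]
    right
    right
    refine ⟨rfl, Or.inl ?_⟩
    change (1 : G)⁻¹ * (f * 1) ∈ (Q k).1
    simpa using hf
  have hlt : ∀ k : ℕ, ((E ⟨k, 1, 0⟩ : UI) : ℚ) < ((E ⟨k, 1, 1⟩ : UI) : ℚ) := by
    intro k
    change E ⟨k, 1, 0⟩ < E ⟨k, 1, 1⟩
    rw [E.lt_iff_lt]
    exact Or.inr ⟨rfl, Or.inr ⟨rfl, by change (0 : ℚ) < 1; norm_num⟩⟩
  refine ⟨extIso.comp ψ, fun g => extIso_per _, ⟨_, _, hlt 0, fun f hf => ?_⟩, ?_⟩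
  · exact key 0 f (by rw [hQ0]; exact hf)
  · intro R hR F
    obtain ⟨k, hk⟩ := hQ R hR F
    refine ⟨_, _, hlt k, fun f hf => ⟨fun h => ?_, fun h h1 => ?_⟩⟩
    · exact key k f ((hk f hf).mpr h)
    · refine key k f⁻¹ ?_
      rcases (Q k).2.2.2.1 f h1 with h2 | h2
      · exact absurd ((hk f hf).mp h2) h
      · exact h2

end PoolLOMin
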