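import Pool.Agent.Helper73.LOMin.Step
import Pool.Agent.Helper73.LOMin.Univ
import Pool.Agent.Helper73.LOMin.Limit

/-!
Assembly (MP_70d4a1_al), relative to the bounded generation theorem.
-/

namespace PoolLOMin

theorem main_of
    (hBG : ∀ h : AutQ, Per h → 0 < h 0 → h 0 < 1 → ∃ l : List AutQ, l.length ≤ 13 ∧
      (∀ x ∈ l, Per x ∧ (Root x ∨ Root x⁻¹)) ∧ l.prod = h)
    (G₀ : Type) [Group G₀] [Countable G₀] (P₀ : Set G₀) (hP₀ : IsCone P₀) :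
    ∃ (G : Type) (_ : Group G) (φ : G₀ →* G) (P₁ : Set G), Countable G ∧ IsCone P₁ ∧
      Nontrivial G ∧ Function.Injective φ ∧ (∀ g, φ g ∈ P₁ ↔ g ∈ P₀) ∧
      ∀ P Q : Set G, IsCone P → IsCone Q → ∀ F : Finset G,
        ∃ g : G, ∀ f ∈ F, (g * f * g⁻¹ ∈ P ↔ f ∈ Q) :=
  limit (fun G _ _ P₀ hP₀ => step_of hBG (fun G _ _ P₀ hP₀ => universal_action G P₀ hP₀) G P₀ hP₀)
    G₀ P₀ hP₀

end PoolLOMin
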