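import Pool.Agent.Helper73.LOMin.Defs

/-!
Base point lemma for rich groups (MP_70d4a1_al).
-/

namespace PoolLOMin

lemma IsCone.rev {G : Type*} [Group G] {P : Set G} (hP : IsCone P) :
    IsCone {a : G | a⁻¹ ∈ P} := by
  obtain ⟨h1, h2, h3, h4⟩ := hP
  refine ⟨fun a ha b hb => ?_, ?_, fun a ha => ?_, fun a ha => ?_⟩
  · change (a * b)⁻¹ ∈ P
    rw [mul_inv_rev]
    exact h1 _ hb _ ha
  · change ((1 : G)⁻¹) ∉ P
    rwa [inv_one]
  · change a⁻¹ ∈ P ∨ a⁻¹⁻¹ ∈ P
    rw [inv_inv]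
    exact (h3 a ha).symm
  · change a⁻¹⁻¹ ∉ P
    rw [inv_inv]
    intro h
    exact h4 a h ha

/-- weak left order of a cone -/
def LL {G : Type*} [Group G] (P : Set G) (a b : G) : Prop := a = b ∨ a⁻¹ * b ∈ P

section LLlemmas

variable {G : Type*} [Group G] {P : Set G}

lemma LL.refl (a : G) : LL P a a := Or.inl rfl

lemma LL.trans (hP : IsCone P) {a b c : G} (h1 : LL P a b) (h2 : LL P b c) : LL P a c := by
  rcases h1 with rfl | h1
  · exact h2
  · rcases h2 with rfl | h2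
    · exact Or.inr h1
    · right
      have := hP.1 _ h1 _ h2
      rwa [mul_assoc, mul_inv_cancel_left] at this

lemma LL.mul_left {a b : G} (h : LL P a b) (c : G) : LL P (c * a) (c * b) := by
  rcases h with rfl | h
  · exact Or.inl rfl
  · right
    rw [mul_inv_rev, mul_assoc, inv_mul_cancel_left]
    exact h

lemma LL.antisymm (hP : IsCone P) {a b : G} (h1 : LL P a b) (h2 : LL P b a) : a = b := by
  rcases h1 with h1 | h1
  · exact h1
  · rcases h2 with h2 | h2
    · exact h2.symm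
    · exfalso
      apply hP.2.2.2 _ h1
      rw [mul_inv_rev, inv_inv]
      exact h2

lemma LL.total (hP : IsCone P) (a b : G) : LL P a b ∨ LL P b a := by
  by_cases hab : a = b
  · exact Or.inl (Or.inl hab)
  · have : a⁻¹ * b ≠ 1 := by
      intro h
      exact hab (inv_mul_eq_one.mp h)
    rcases hP.2.2.1 _ this with h | h
    · exact Or.inl (Or.inr h)
    · right; right
      rwa [mul_inv_rev, inv_inv] at h

lemma mem_of_not_LL (hP : IsCone P) {f : G} (h : ¬ LL P f 1) : f ∈ P := by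
  have h1 : f ≠ 1 := fun h' => h (Or.inl h')
  rcases hP.2.2.1 f h1 with h2 | h2
  · exact h2
  · exfalso; apply h; right; rwa [mul_one]

end LLlemmas

lemma shift_mul (a b : ℚ) : shift a * shift b = shift (a + b) := by
  ext x
  simp only [mul_apply', shift_apply]
  ring

lemma shift_zero : shift 0 = 1 := by
  ext x
  simp

lemma shift_inv (a : ℚ) : (shift a)⁻¹ = shift (-a) := by
  rw [inv_eq_iff_mul_eq_one, shift_mul, add_neg_cancel, shift_zero]

lemma Per.nat {f : AutQ} (hf : Per f) (n : ℕ) (x : ℚ) : f (x + n) = f x + n := by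
  induction n with
  | zero => simp
  | succ n ih =>
    push_cast
    rw [← add_assoc, hf, ih]
    ring

lemma Per.int {f : AutQ} (hf : Per f) (n : ℤ) (x : ℚ) : f (x + n) = f x + n := by
  obtain ⟨m, rfl | rfl⟩ := n.eq_nat_or_neg
  · exact_mod_cast hf.nat m x
  · have := hf.nat m (x + ((-(m : ℤ) : ℤ) : ℚ))
    push_cast at this ⊢
    rw [neg_add_cancel_right] at this
    linarith

lemma shift_comm {f : AutQ} (hf : Per f) (n : ℤ) : f * shift n = shift n * f := by
  ext x
  simp only [mul_apply', shift_apply]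
  exact hf.int n x

section rigid

variable {H : Subgroup AutQ} (hH : Rich H)

/-- the translation by `c` as an element of a rich group -/
def sh (c : ℚ) : H := ⟨shift c, hH.shift_mem c⟩

lemma sh_mul (a b : ℚ) : sh hH a * sh hH b = sh hH (a + b) := Subtype.ext (shift_mul a b)

lemma sh_zero : sh hH 0 = 1 := Subtype.ext shift_zero

lemma sh_inv (a : ℚ) : (sh hH a)⁻¹ = sh hH (-a) := Subtype.ext (shift_inv a)

lemma sh_comm (f : H) (n : ℤ) : f * sh hH n = sh hH n * f :=
  Subtype.ext (shift_comm (hH.per _ f.2) n)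

lemma sh_inj {a b : ℚ} (h : sh hH a = sh hH b) : a = b := by
  have h1 : shift a = shift b := congrArg Subtype.val h
  have h2 : shift a 0 = shift b 0 := by rw [h1]
  simpa using h2

lemma sh_apply (c x : ℚ) : ((sh hH c : H) : AutQ) x = x + c := rfl

variable {P : Set H} (hP : IsCone P) (ht : sh hH 1 ∈ P)

include hP ht

lemma root_mem {x : H} (hx : Root (x : AutQ)) : x ∈ P := by
  have hxx : x * x = sh hH 1 := by
    apply Subtype.ext
    apply OrderIso.ext
    funext y
    exact hx y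
  have h1 : x ≠ 1 := by
    rintro rfl
    rw [mul_one] at hxx
    rw [← hxx] at ht
    exact hP.2.1 ht
  rcases hP.2.2.1 x h1 with h | h
  · exact h
  · exfalso
    have h2 := hP.1 _ h _ h
    rw [← mul_inv_rev, hxx] at h2
    exact hP.2.2.2 _ ht h2

lemma root_LL {x : H} (hx : Root (x : AutQ) ∨ Root (x : AutQ)⁻¹) : LL P x (sh hH 1) := by
  rcases hx with hx | hx
  · right
    have hxx : x * x = sh hH 1 := by
      apply Subtype.ext
      apply OrderIso.ext
      funext y
      exact hx y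
    rw [← hxx, inv_mul_cancel_left]
    exact root_mem hH hP ht hx
  · right
    have h1 : x⁻¹ ∈ P := root_mem hH hP ht (x := x⁻¹) hx
    exact hP.1 _ h1 _ ht

lemma LL_one_sh (n : ℕ) : LL P 1 (sh hH n) := by
  induction n with
  | zero => left; rw [Nat.cast_zero, sh_zero]
  | succ n ih =>
    refine LL.trans hP ih ?_
    right
    rw [sh_inv, sh_mul]
    push_cast
    rw [neg_add_cancel_left]
    exact ht

lemma LL_sh_sh {m n : ℤ} (h : m ≤ n) : LL P (sh hH m) (sh hH n) := by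
  obtain ⟨k, rfl⟩ := Int.le.dest h
  have h1 := (LL_one_sh hH hP ht k).mul_left (sh hH m)
  rw [mul_one, sh_mul] at h1
  push_cast
  exact h1

lemma list_LL (l : List AutQ) (hl : ∀ x ∈ l, x ∈ H ∧ (Root x ∨ Root x⁻¹)) (hp : l.prod ∈ H) :
    LL P ⟨l.prod, hp⟩ (sh hH (l.length : ℤ)) := by
  induction l with
  | nil =>
    left
    apply Subtype.ext
    change (1 : AutQ) = shift _
    simp only [List.length_nil, Nat.cast_zero, Int.cast_zero]
    exact shift_zero.symm
  | cons x l ih =>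
    have hx := hl x List.mem_cons_self
    have hl' : ∀ y ∈ l, y ∈ H ∧ (Root y ∨ Root y⁻¹) := fun y hy => hl y (List.mem_cons_of_mem _ hy)
    have hp' : l.prod ∈ H := H.list_prod_mem fun y hy => (hl' y hy).1
    have h1 := (ih hl' hp').mul_left (⟨x, hx.1⟩ : H)
    have h2 : (⟨(x :: l).prod, hp⟩ : H) = ⟨x, hx.1⟩ * ⟨l.prod, hp'⟩ := by
      apply Subtype.ext
      simp
    rw [h2]
    refine LL.trans hP h1 ?_
    rw [sh_comm]
    have h3 := (root_LL hH hP ht (x := ⟨x, hx.1⟩) hx.2).mul_left (sh hH (l.length : ℤ))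
    rw [sh_mul] at h3
    have h4 : ((((x :: l).length : ℤ)) : ℚ) = ((l.length : ℤ) : ℚ) + 1 := by
      simp
    rw [h4]
    exact h3

lemma upper_one (h : H) (h0 : 0 < (h : AutQ) 0) (h1 : (h : AutQ) 0 < 1) :
    LL P h (sh hH (13 : ℤ)) := by
  obtain ⟨l, hlen, hl, hprod⟩ := hH.gen h h.2 h0 h1
  have hp : l.prod ∈ H := by rw [hprod]; exact h.2
  have h2 := list_LL hH hP ht l hl hp
  have h3 : (⟨l.prod, hp⟩ : H) = h := Subtype.ext hprod
  rw [h3] at h2
  exact LL.trans hP h2 (LL_sh_sh hH hP ht (by exact_mod_cast hlen))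

lemma upper (h : H) : LL P h (sh hH ((⌊(h : AutQ) 0⌋ + 13 : ℤ) : ℚ)) := by
  by_cases hfr : Int.fract ((h : AutQ) 0) = 0
  · have hr : sh hH (1 / 2) ∈ P := by
      apply root_mem hH hP ht
      intro x
      simp only [sh_apply]
      ring
    have hk : (h : AutQ) 0 = ⌊(h : AutQ) 0⌋ := by
      have := Int.self_sub_floor ((h : AutQ) 0)
      rw [hfr] at this
      linarith
    set k : ℤ := ⌊(h : AutQ) 0⌋ with hkdef
    have e : ((sh hH (-(k : ℚ)) * (sh hH (1 / 2) * h) : H) : AutQ) 0 = 1 / 2 := by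
      change ((h : AutQ) 0 + 1 / 2) + -(k : ℚ) = 1 / 2
      rw [hk]; ring
    have h2 := upper_one hH hP ht (sh hH (-(k : ℚ)) * (sh hH (1 / 2) * h))
      (by rw [e]; norm_num) (by rw [e]; norm_num)
    have h3 := h2.mul_left (sh hH (-(1 / 2 : ℚ)) * sh hH (k : ℚ))
    have e1 : sh hH (-(1 / 2 : ℚ)) * sh hH (k : ℚ) * (sh hH (-(k : ℚ)) * (sh hH (1 / 2) * h)) = h := by
      rw [← mul_assoc, ← mul_assoc, sh_mul, sh_mul, sh_mul]
      have : -(1 / 2 : ℚ) + k + -k + 1 / 2 = 0 := by ring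
      rw [this, sh_zero, one_mul]
    rw [e1] at h3
    refine LL.trans hP h3 ?_
    right
    rw [sh_mul, sh_mul, sh_inv, sh_mul]
    have : -(-(1 / 2 : ℚ) + k + ((13 : ℤ) : ℚ)) + ((k + 13 : ℤ) : ℚ) = 1 / 2 := by
      push_cast; ring
    rw [this]
    exact hr
  · set k : ℤ := ⌊(h : AutQ) 0⌋ with hkdef
    have e : ((sh hH (-(k : ℚ)) * h : H) : AutQ) 0 = Int.fract ((h : AutQ) 0) := by
      change (h : AutQ) 0 + -(k : ℚ) = _
      rw [← Int.self_sub_floor]; ring
    have h2 := upper_one hH hP ht (sh hH (-(k : ℚ)) * h)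
      (by rw [e]; exact lt_of_le_of_ne (Int.fract_nonneg _) (Ne.symm hfr))
      (by rw [e]; exact Int.fract_lt_one _)
    have h3 := h2.mul_left (sh hH (k : ℚ))
    rw [← mul_assoc, sh_mul, add_neg_cancel, sh_zero, one_mul, sh_mul] at h3
    push_cast at h3 ⊢
    exact h3

lemma int_bound (h : H) (k : ℤ) (hk : LL P (sh hH k) h) : (k : ℚ) ≤ (h : AutQ) 0 + 13 := by
  have h1 := LL.trans hP hk (upper hH hP ht h)
  have h2 : k ≤ ⌊(h : AutQ) 0⌋ + 13 := by
    by_contra hlt
    push Not at hlt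
    have h3 := LL_sh_sh hH hP ht hlt.le
    have h4 := LL.antisymm hP h1 h3
    have h5 := sh_inj hH h4
    have h6 : k = ⌊(h : AutQ) 0⌋ + 13 := by exact_mod_cast h5
    omega
  have h3 : (k : ℚ) ≤ ((⌊(h : AutQ) 0⌋ + 13 : ℤ) : ℚ) := by exact_mod_cast h2
  have h4 := Int.floor_le ((h : AutQ) 0)
  push_cast at h3
  linarith

lemma rigid_pos (u v : ℚ) (huv : u < v) :
    ∃ h : H, ∀ f : H, v ≤ (f : AutQ) u → h * f * h⁻¹ ∈ P := by
  set Lam : Set ℚ := {y | ∃ h : H, ∃ k : ℤ, LL P (sh hH k) h ∧ (h : AutQ) y ≤ k} with hLam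
  have h0 : (0 : ℚ) ∈ Lam := by
    refine ⟨1, 0, ?_, ?_⟩
    · left
      rw [Int.cast_zero, sh_zero]
    · change (0 : ℚ) ≤ _
      simp
  have hlow : ∀ y ∈ Lam, ∀ z ≤ y, z ∈ Lam := by
    rintro y ⟨h, k, h1, h2⟩ z hz
    exact ⟨h, k, h1, le_trans ((h : AutQ).monotone hz) h2⟩
  have hbd : ∀ y ∈ Lam, y ≤ 13 := by
    rintro y ⟨h, k, h1, h2⟩
    have h3 := int_bound hH hP ht h k h1
    have h4 : (h : AutQ) 13 = (h : AutQ) 0 + 13 := by
      have := (hH.per _ h.2).int 13 0
      simpa using this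
    rw [← h4] at h3
    exact (h : AutQ).le_iff_le.mp (h2.trans h3)
  have hmove : ∀ f : H, LL P f 1 → ∀ y ∈ Lam, (f : AutQ) y ∈ Lam := by
    rintro f hf y ⟨h, k, h1, h2⟩
    refine ⟨h * f⁻¹, k, ?_, ?_⟩
    · refine LL.trans hP h1 ?_
      have h3 := hf.mul_left (h * f⁻¹)
      rw [inv_mul_cancel_right, mul_one] at h3
      exact h3
    · change (h : AutQ) (((f⁻¹ : H) : AutQ) ((f : AutQ) y)) ≤ k
      have : (((f⁻¹ : H) : AutQ) ((f : AutQ) y)) = y := by
        change (((f⁻¹ : H) : AutQ) * (f : AutQ)) y = y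
        rw [← Subgroup.coe_mul, inv_mul_cancel]
        rfl
      rw [this]
      exact h2
  -- arithmetic progression
  obtain ⟨q, hq1, hq2⟩ : ∃ q : ℚ, u - q ∈ Lam ∧ v - q ∉ Lam := by
    have hw : 0 < v - u := sub_pos.mpr huv
    have hex : ∃ n : ℕ, (n : ℚ) * (v - u) ∉ Lam := by
      obtain ⟨n, hn⟩ := exists_nat_gt (13 / (v - u))
      refine ⟨n, fun hmem => ?_⟩
      have h1 := hbd _ hmem
      rw [div_lt_iff₀ hw] at hn
      linarith
    classical
    have hspec := Nat.find_spec hex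
    have hmin := fun m => @Nat.find_min _ _ hex m
    set n := Nat.find hex with hn
    have hn0 : n ≠ 0 := by
      intro h
      rw [h] at hspec
      apply hspec
      simpa using h0
    obtain ⟨m, hm⟩ := Nat.exists_eq_succ_of_ne_zero hn0
    have h1 : (m : ℚ) * (v - u) ∈ Lam := by
      by_contra hcon
      exact hmin m (by omega) hcon
    refine ⟨u - m * (v - u), ?_, ?_⟩
    · have : u - (u - m * (v - u)) = m * (v - u) := by ring
      rw [this]
      exact h1
    · have : v - (u - m * (v - u)) = n * (v - u) := by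
        rw [hm]; push_cast; ring
      rw [this]
      exact hspec
  refine ⟨sh hH (-q), fun f hf => ?_⟩
  apply mem_of_not_LL hP
  intro hle
  have h1 := hmove _ hle _ hq1
  have h2 : ((sh hH (-q) * f * (sh hH (-q))⁻¹ : H) : AutQ) (u - q) = (f : AutQ) u - q := by
    rw [sh_inv, neg_neg]
    change (f : AutQ) ((u - q) + q) + -q = _
    rw [sub_add_cancel]
    ring
  rw [h2] at h1
  exact hq2 (hlow _ h1 _ (by linarith))

end rigid

/-- Base point lemma for rich groups. -/
theorem rigid (H : Subgroup AutQ) (hH : Rich H) (P : Set H) (hP : IsCone P) :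
    (∀ u v : ℚ, u < v → ∃ h : H, ∀ f : H, v ≤ (f : AutQ) u → h * f * h⁻¹ ∈ P) ∨
    (∀ u v : ℚ, u < v → ∃ h : H, ∀ f : H, v ≤ (f : AutQ) u → h * f⁻¹ * h⁻¹ ∈ P) := by
  have h1 : sh hH 1 ≠ 1 := by
    intro h
    rw [← sh_zero hH] at h
    have := sh_inj hH h
    norm_num at this
  rcases hP.2.2.1 _ h1 with ht | ht
  · left
    exact rigid_pos hH hP ht
  · right
    intro u v huv
    obtain ⟨h, hh⟩ := rigid_pos hH hP.rev ht u v huv
    refine ⟨h, fun f hf => ?_⟩
    have h2 : (h * f * h⁻¹)⁻¹ ∈ P := hh f hf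
    rw [mul_inv_rev, mul_inv_rev, inv_inv, ← mul_assoc] at h2
    exact h2

end PoolLOMin
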