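import Pool.Agent.Helper73.LOMin.Close

/-!
One step of the construction (MP_70d4a1_al).
-/

namespace PoolLOMin

/-- the cone of the first moved point -/
def firstCone (H : Subgroup AutQ) (e : ℕ → ℚ) : Set H :=
  {h | ∃ n, (∀ m < n, (h : AutQ) (e m) = e m) ∧ e n < (h : AutQ) (e n)}

lemma inv_apply_of_fix {f : AutQ} {x : ℚ} (h : f x = x) : f⁻¹ x = x := by
  apply f.injective
  change f (f.symm x) = f x
  rw [f.apply_symm_apply, h]

lemma isCone_firstCone (H : Subgroup AutQ) (e : ℕ → ℚ) (he : Function.Surjective e) :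
    IsCone (firstCone H e) := by
  have hmul : ∀ a ∈ firstCone H e, ∀ b ∈ firstCone H e, a * b ∈ firstCone H e := by
    rintro a ⟨n, hn1, hn2⟩ b ⟨m, hm1, hm2⟩
    have hab : ∀ x, ((a * b : H) : AutQ) x = (a : AutQ) ((b : AutQ) x) := fun x => rfl
    rcases lt_trichotomy n m with h | h | h
    · refine ⟨n, fun i hi => ?_, ?_⟩
      · rw [hab, hm1 i (hi.trans h), hn1 i hi]
      · rw [hab, hm1 n h]
        exact hn2
    · subst h
      refine ⟨n, fun i hi => ?_, ?_⟩
      · rw [hab, hm1 i hi, hn1 i hi]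
      · rw [hab]
        exact hn2.trans ((a : AutQ).strictMono hm2)
    · refine ⟨m, fun i hi => ?_, ?_⟩
      · rw [hab, hm1 i hi, hn1 i (hi.trans h)]
      · rw [hab]
        have := (a : AutQ).strictMono hm2
        rwa [hn1 m h] at this
  have hone : (1 : H) ∉ firstCone H e := by
    rintro ⟨n, _, h⟩
    exact lt_irrefl _ h
  refine ⟨hmul, hone, ?_, ?_⟩
  · intro a ha
    have hex : ∃ n, (a : AutQ) (e n) ≠ e n := by
      by_contra hcon
      push Not at hcon
      apply ha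
      apply Subtype.ext
      apply OrderIso.ext
      funext x
      obtain ⟨n, rfl⟩ := he x
      exact hcon n
    classical
    have hspec := Nat.find_spec hex
    have hmin := fun m => @Nat.find_min _ _ hex m
    set n := Nat.find hex with hn
    have hfix : ∀ m < n, (a : AutQ) (e m) = e m := by
      intro m hm
      by_contra hcon
      exact hmin m hm hcon
    rcases lt_or_gt_of_ne hspec with h | h
    · right
      refine ⟨n, fun m hm => inv_apply_of_fix (hfix m hm), ?_⟩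
      change e n < (a : AutQ).symm (e n)
      rw [← (a : AutQ).lt_iff_lt, (a : AutQ).apply_symm_apply]
      exact h
    · left
      exact ⟨n, hfix, h⟩
  · intro a ha hinv
    have := hmul a ha _ hinv
    rw [mul_inv_cancel] at this
    exact hone this

theorem step_of
    (hBG : ∀ h : AutQ, Per h → 0 < h 0 → h 0 < 1 → ∃ l : List AutQ, l.length ≤ 13 ∧
      (∀ x ∈ l, Per x ∧ (Root x ∨ Root x⁻¹)) ∧ l.prod = h)
    (hU : ∀ (G : Type) [Group G] [Countable G] (P₀ : Set G), IsCone P₀ →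
      ∃ ρ : G →* AutQ, (∀ g, Per (ρ g)) ∧
      (∃ u v : ℚ, u < v ∧ ∀ f ∈ P₀, v ≤ ρ f u) ∧
      (∀ Q : Set G, IsCone Q → ∀ F : Finset G, ∃ u v : ℚ, u < v ∧
        ∀ f ∈ F, (f ∈ Q → v ≤ ρ f u) ∧ (f ∉ Q → f ≠ 1 → v ≤ ρ f⁻¹ u)))
    (G : Type) [Group G] [Countable G] (P₀ : Set G) (hP₀ : IsCone P₀) :
    ∃ (H : Type) (_ : Group H) (φ : G →* H) (P₁ : Set H), Countable H ∧ IsCone P₁ ∧
      Nontrivial H ∧ Function.Injective φ ∧ (∀ g, φ g ∈ P₁ ↔ g ∈ P₀) ∧
      ∀ P : Set H, IsCone P → ∀ Q : Set G, IsCone Q → ∀ F : Finset G,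
        ∃ h : H, ∀ f ∈ F, (h * φ f * h⁻¹ ∈ P ↔ f ∈ Q) := by
  obtain ⟨ρ, hper, ⟨u₀, v₀, huv₀, hbase⟩, huniv⟩ := hU G P₀ hP₀
  obtain ⟨H, hH, hSH, hHc⟩ := exists_rich_of hBG (Set.range ρ) (Set.countable_range _)
    (by rintro _ ⟨g, rfl⟩; exact hper g)
  have hmem : ∀ g, ρ g ∈ H := fun g => hSH ⟨g, rfl⟩
  let φ : G →* H := ρ.codRestrict H hmem
  have hφ : ∀ g, ((φ g : H) : AutQ) = ρ g := fun g => rfl
  obtain ⟨e', he'⟩ := exists_surjective_nat ℚ
  let e : ℕ → ℚ := fun n => Nat.casesOn n u₀ e'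
  have he : Function.Surjective e := by
    intro x
    obtain ⟨n, hn⟩ := he' x
    exact ⟨n + 1, hn⟩
  have he0 : e 0 = u₀ := rfl
  have hcone := isCone_firstCone H e he
  have hpos : ∀ g ∈ P₀, φ g ∈ firstCone H e := by
    intro g hg
    refine ⟨0, fun m hm => absurd hm (Nat.not_lt_zero m), ?_⟩
    rw [he0, hφ]
    exact huv₀.trans_le (hbase g hg)
  have hiff : ∀ g, φ g ∈ firstCone H e ↔ g ∈ P₀ := by
    intro g
    constructor
    · intro h
      by_contra hg
      by_cases h1 : g = 1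
      · rw [h1, map_one] at h
        exact hcone.2.1 h
      · rcases hP₀.2.2.1 g h1 with h2 | h2
        · exact hg h2
        · have h3 := hpos _ h2
          rw [map_inv] at h3
          exact hcone.2.2.2 _ h h3
    · exact hpos g
  have hinj : Function.Injective φ := by
    rw [injective_iff_map_eq_one]
    intro g hg
    by_contra h1
    rcases hP₀.2.2.1 g h1 with h2 | h2
    · have h3 := hpos _ h2
      rw [hg] at h3
      exact hcone.2.1 h3
    · have h3 := hpos _ h2
      rw [map_inv, hg, inv_one] at h3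
      exact hcone.2.1 h3
  refine ⟨H, inferInstance, φ, firstCone H e, hHc, hcone, ?_, hinj, hiff, ?_⟩
  · refine ⟨⟨sh hH 1, 1, ?_⟩⟩
    intro h
    rw [← sh_zero hH] at h
    have := sh_inj hH h
    norm_num at this
  · intro P hP Q hQ F
    have hone : ∀ h : H, h * φ 1 * h⁻¹ ∉ P := by
      intro h
      rw [map_one, mul_one, mul_inv_cancel]
      exact hP.2.1
    have hinvc : ∀ (h : H) (f : G), (h * φ f * h⁻¹)⁻¹ = h * φ f⁻¹ * h⁻¹ := by
      intro h f
      rw [map_inv]
      group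
    have hkey : ∀ (Q' : Set G), IsCone Q' → ∃ u v : ℚ, u < v ∧
        ∀ f ∈ F, (f ∈ Q' → v ≤ ((φ f : H) : AutQ) u) ∧
          (f ∉ Q' → f ≠ 1 → v ≤ ((φ f⁻¹ : H) : AutQ) u) := fun Q' hQ' => huniv Q' hQ' F
    rcases rigid H hH P hP with hr | hr
    · obtain ⟨u, v, huv, hF⟩ := hkey Q hQ
      obtain ⟨h, hh⟩ := hr u v huv
      refine ⟨h, fun f hf => ?_⟩
      obtain ⟨h1, h2⟩ := hF f hf
      constructor
      · intro h3
        by_contra h4
        by_cases h5 : f = 1
        · subst h5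
          exact hone h h3
        · have h6 := hh _ (h2 h4 h5)
          rw [← hinvc] at h6
          exact hP.2.2.2 _ h3 h6
      · intro h3
        exact hh _ (h1 h3)
    · obtain ⟨u, v, huv, hF⟩ := hkey _ hQ.rev
      obtain ⟨h, hh⟩ := hr u v huv
      refine ⟨h, fun f hf => ?_⟩
      obtain ⟨h1, h2⟩ := hF f hf
      have hpos' : f ∈ Q → h * φ f * h⁻¹ ∈ P := by
        intro h3
        have h5 : f ≠ 1 := by
          rintro rfl
          exact hQ.2.1 h3
        have h4 : f ∉ {a : G | a⁻¹ ∈ Q} := hQ.2.2.2 f h3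
        have h6 := hh _ (h2 h4 h5)
        rw [map_inv, inv_inv] at h6
        exact h6
      refine ⟨fun h3 => ?_, hpos'⟩
      by_contra h4
      by_cases h5 : f = 1
      · subst h5
        exact hone h h3
      · have h7 : f ∈ {a : G | a⁻¹ ∈ Q} := by
          rcases hQ.2.2.1 f h5 with h8 | h8
          · exact absurd h8 h4
          · exact h8
        have h6 := hh _ (h1 h7)
        rw [← map_inv, ← hinvc] at h6
        exact hP.2.2.2 _ h3 h6

end PoolLOMin
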